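import Mathlib
import Pool.Agent.V11269.BadTorus4

/-!
The zero-one law for `Bad_A` fails for algebraic measures on cosets: there are a (non-singular)
`2 × 1` matrix `A` and the Haar probability measure `μ` on a coset of a one-dimensional subtorus
of `T^2` with `0 < μ (Bad_A) < 1`.
-/

namespace Pool.Agent.Results.MP_39ae23_nt.ZeroOneFails

open MeasureTheory Pool.Agent.V11269.BadTorus

/-- The base point `(0, y)`. -/
noncomputable def base : Torus 2 := fun i => if i = 0 then 0 else y

lemma exists_rep (a b : UnitAddCircle) : ∃ s : ℝ, a = b + (s : UnitAddCircle) ∧ |s| = ‖a - b‖ := by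
  obtain ⟨t, ht⟩ := QuotientAddGroup.mk_surjective (a - b)
  have ht' : ((t : ℝ) : UnitAddCircle) = a - b := ht
  refine ⟨t - round t, ?_, ?_⟩
  · rw [AddCircle.coe_sub, coe_int, sub_zero, ht']; abel
  · rw [← ht', UnitAddCircle.norm_eq]

lemma open_ball (c : ℝ) : IsOpen {x : Torus 1 | ‖x 0 - (c : UnitAddCircle)‖ < 1 / 8} := by
  apply isOpen_lt _ continuous_const
  exact ((continuous_apply 0).sub continuous_const).norm

lemma nonempty_ball (c : ℝ) : {x : Torus 1 | ‖x 0 - (c : UnitAddCircle)‖ < 1 / 8}.Nonempty :=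
  ⟨fun _ => (c : UnitAddCircle), by simp⟩

/-- The zero-one law fails. -/
theorem result : ∃ (A : Matrix (Fin 2) (Fin 1) ℝ) (μ : Measure (Torus 2)) (C : Set (Torus 2)),
    ¬ Singular A ∧ AlgebraicOn 1 μ C ∧ 0 < μ (Bad A) ∧ μ (Bad A) < 1 := by
  have hcont : Continuous (fun x : Torus 1 => base + incl x) := continuous_const.add incl_cont
  refine ⟨mat, _, _, not_singular, ⟨base, incl, incl_cont, incl_inj, rfl, rfl⟩, ?_, ?_⟩
  · refine lt_of_lt_of_le ?_ (Measure.le_map_apply hcont.measurable.aemeasurable _)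
    have hsub : {x : Torus 1 | ‖x 0 - ((E + 5 / 8 : ℝ) : UnitAddCircle)‖ < 1 / 8} ⊆
        (fun x : Torus 1 => base + incl x) ⁻¹' (Bad mat) := by
      intro x hx
      have hx' : ‖x 0 - ((E + 5 / 8 : ℝ) : UnitAddCircle)‖ < 1 / 8 := hx
      obtain ⟨s, hs, hs2⟩ := exists_rep (x 0) ((E + 5 / 8 : ℝ) : UnitAddCircle)
      rw [← hs2, abs_lt] at hx'
      show base + incl x ∈ Bad mat
      rw [mem_bad_iff]
      have h0 : (base + incl x) 0 = ((E + (5 / 8 + s) : ℝ) : UnitAddCircle) := by
        rw [Pi.add_apply, incl_zero, hs, ← AddCircle.coe_add]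
        simp [base, add_assoc]
      have h1 : (base + incl x) 1 = y := by
        rw [Pi.add_apply, incl_one]; simp [base]
      rw [h0, h1]
      have := bad_region (t := 5 / 8 + s) (by linarith [hx'.1]) (by linarith [hx'.2])
      simpa [gt_iff_lt] using this
    exact lt_of_lt_of_le ((open_ball _).measure_pos _ (nonempty_ball _)) (measure_mono hsub)
  · set V : Set (Torus 2) :=
      {p | ‖p 0 - ((E + 1 / 8 : ℝ) : UnitAddCircle)‖ < 1 / 8 ∧ p 1 = y}ᶜ with hV
    have hVmeas : MeasurableSet V := by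
      have h1 : IsOpen {p : Torus 2 | ‖p 0 - ((E + 1 / 8 : ℝ) : UnitAddCircle)‖ < 1 / 8} := by
        apply isOpen_lt _ continuous_const
        exact ((continuous_apply 0).sub continuous_const).norm
      have h2 : IsClosed {p : Torus 2 | p 1 = y} := isClosed_eq (continuous_apply 1) continuous_const
      exact (h1.measurableSet.inter h2.measurableSet).compl
    have hsub : Bad mat ⊆ V := by
      intro p hp hpV
      obtain ⟨hp0, hp1⟩ := hpV
      obtain ⟨s, hs, hs2⟩ := exists_rep (p 0) ((E + 1 / 8 : ℝ) : UnitAddCircle)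
      rw [← hs2, abs_lt] at hp0
      rw [mem_bad_iff] at hp
      have h0 : p 0 = ((E + (1 / 8 + s) : ℝ) : UnitAddCircle) := by
        rw [hs, ← AddCircle.coe_add, add_assoc]
      rw [h0, hp1] at hp
      have := not_bad_region (t := 1 / 8 + s) (by linarith [hp0.1]) (by linarith [hp0.2])
      apply this
      simpa [gt_iff_lt] using hp
    refine lt_of_le_of_lt (measure_mono hsub) ?_
    rw [Measure.map_apply hcont.measurable hVmeas]
    have hpre : (fun x : Torus 1 => base + incl x) ⁻¹' V =
        {x : Torus 1 | ‖x 0 - ((E + 1 / 8 : ℝ) : UnitAddCircle)‖ < 1 / 8}ᶜ := by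
      ext x
      simp only [hV, Set.mem_preimage, Set.mem_compl_iff, Set.mem_ofPred_eq, not_iff_not]
      have h0 : (base + incl x) 0 = x 0 := by
        rw [Pi.add_apply, incl_zero]; simp [base]
      have h1 : (base + incl x) 1 = y := by
        rw [Pi.add_apply, incl_one]; simp [base]
      rw [h0, h1]
      simp
    rw [hpre, prob_compl_eq_one_sub (open_ball _).measurableSet]
    have hpos := (open_ball (E + 1 / 8)).measure_pos (volume : Measure (Torus 1)) (nonempty_ball _)
    exact ENNReal.sub_lt_self ENNReal.one_ne_top one_ne_zero hpos.ne'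

end Pool.Agent.Results.MP_39ae23_nt.ZeroOneFails
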